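import Pool.Agent.W707.HM.Stm

set_option autoImplicit false

/-!
# Rank-one convexity of the functions defined by `g`, `h`
-/

namespace Pool.Agent.W368.HM

open Set Filter Topology
open Pool.Agent.W360.MQ (RC)

/-- a convex nondecreasing function, extended by a constant to the left, is convex -/
theorem convex_max {G : ℝ → ℝ} {L : ℝ} (hc : ConvexOn ℝ (Ici L) G) (hm : MonotoneOn G (Ici L)) :
    ConvexOn ℝ univ (fun u => G (max u L)) := by
  refine ⟨convex_univ, ?_⟩
  intro x _ y _ a b ha hb hab
  have hx : max x L ∈ Ici L := mem_Ici.2 (le_max_right _ _)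
  have hy : max y L ∈ Ici L := mem_Ici.2 (le_max_right _ _)
  have hxy : max (a • x + b • y) L ∈ Ici L := mem_Ici.2 (le_max_right _ _)
  have h1 : a • max x L + b • max y L ∈ Ici L := (convex_Ici L) hx hy ha hb hab
  have h2 : max (a • x + b • y) L ≤ a • max x L + b • max y L := by
    refine max_le ?_ h1
    exact add_le_add (mul_le_mul_of_nonneg_left (le_max_left _ _) ha)
      (mul_le_mul_of_nonneg_left (le_max_left _ _) hb)
  exact (hm hxy h1 h2).trans (hc.2 hx hy ha hb hab)

section

variable {g h nu : ℝ → ℝ} {c n1 : ℝ}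

theorem der_at {f f' : ℝ → ℝ} (hf : ∀ s, 1 ≤ s → HasDerivWithinAt f (f' s) (Ici 1) s) {s : ℝ}
    (hs : 1 < s) : HasDerivAt f (f' s) s :=
  (hf s hs.le).hasDerivAt (Ici_mem_nhds hs)

theorem cont_on {f f' : ℝ → ℝ} (hf : ∀ s, 1 ≤ s → HasDerivWithinAt f (f' s) (Ici 1) s) :
    ContinuousOn f (Ici 1) := fun s hs => (hf s hs).continuousWithinAt

/-- the mean value inequality for `h` -/
theorem h_low (hh : ∀ s, 1 ≤ s → HasDerivWithinAt h (-nu s) (Ici 1) s)
    (hnu : MonotoneOn nu (Ici 1)) {s1 s2 : ℝ} (h1 : 1 ≤ s1) (h12 : s1 ≤ s2) :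
    -((s2 - s1) * nu s2) ≤ h s2 - h s1 := by
  have hsub : Icc s1 s2 ⊆ Ici 1 := fun s hs => h1.trans hs.1
  have hmono : MonotoneOn (fun s => h s + s * nu s2) (Icc s1 s2) := by
    refine monotoneOn_of_deriv_nonneg (convex_Icc _ _) ?_ ?_ ?_
    · exact ((cont_on hh).mono hsub).add (continuousOn_id.mul continuousOn_const)
    · intro s hs
      rw [interior_Icc] at hs
      exact (((der_at hh (h1.trans_lt hs.1)).add
        ((hasDerivAt_id s).mul_const (nu s2))).differentiableAt).differentiableWithinAt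
    · intro s hs
      rw [interior_Icc] at hs
      have hd : HasDerivAt (fun s => h s + s * nu s2) (-nu s + 1 * nu s2) s :=
        (der_at hh (h1.trans_lt hs.1)).add ((hasDerivAt_id s).mul_const (nu s2))
      rw [hd.deriv]
      have := hnu (hsub ⟨hs.1.le, hs.2.le⟩) (h1.trans h12) hs.2.le
      linarith
  have := hmono ⟨le_rfl, h12⟩ ⟨h12, le_rfl⟩ h12
  simp only at this
  linarith

/-- the outer part -/
noncomputable def G (g h : ℝ → ℝ) (L θ u : ℝ) : ℝ := g u + h u * θ - g L - h L / L * θ * u

theorem G_props (hh : ∀ s, 1 ≤ s → HasDerivWithinAt h (-nu s) (Ici 1) s)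
    (hg : ∀ s, 1 ≤ s → HasDerivWithinAt g (h s + s * nu s) (Ici 1) s)
    (hnu : MonotoneOn nu (Ici 1)) (hn1 : n1 ≤ nu 1) (hh1 : h 1 = -n1) {L θ : ℝ} (hL : 1 ≤ L)
    (hθ : θ ≤ L) : ConvexOn ℝ (Ici L) (G g h L θ) ∧ MonotoneOn (G g h L θ) (Ici L) := by
  have hL0 : (0 : ℝ) < L := by linarith
  have hsub : Ici L ⊆ Ici (1 : ℝ) := Ici_subset_Ici.2 hL
  have hcont : ContinuousOn (G g h L θ) (Ici L) := by
    have h1 := (cont_on hg).mono hsub
    have h2 := (cont_on hh).mono hsub
    exact ((h1.add (h2.mul continuousOn_const)).sub continuousOn_const).sub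
      (continuousOn_const.mul continuousOn_id)
  have hd : ∀ u ∈ interior (Ici L), HasDerivAt (G g h L θ)
      (h u + (u - θ) * nu u - h L / L * θ) u := by
    intro u hu
    rw [interior_Ici] at hu
    have hu1 : 1 < u := lt_of_le_of_lt hL hu
    have h3 : HasDerivAt (G g h L θ)
        ((h u + u * nu u) + (-nu u) * θ - 0 - h L / L * θ * 1) u :=
      (((der_at hg hu1).add ((der_at hh hu1).mul_const θ)).sub (hasDerivAt_const u (g L))).sub
        ((hasDerivAt_id u).const_mul (h L / L * θ))
    convert h3 using 1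
    ring
  have hmonoS : ∀ s1 s2, L ≤ s1 → s1 ≤ s2 →
      h s1 + (s1 - θ) * nu s1 ≤ h s2 + (s2 - θ) * nu s2 := by
    intro s1 s2 h1 h2
    have h3 := h_low hh hnu (hL.trans h1) h2
    have h4 := hnu (hsub h1) (hsub (h1.trans h2)) h2
    have h5 : 0 ≤ (s1 - θ) * (nu s2 - nu s1) :=
      mul_nonneg (by linarith) (by linarith)
    nlinarith
  have hSL : h L / L * θ ≤ h L + (L - θ) * nu L := by
    have h3 := h_low hh hnu le_rfl hL
    have h4 := hnu (mem_Ici.2 (le_refl (1 : ℝ))) (mem_Ici.2 hL) hL
    have h5 : 0 ≤ h L + L * nu L := by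
      rw [hh1] at h3
      nlinarith
    have h6 : h L + (L - θ) * nu L - h L / L * θ = (L - θ) / L * (h L + L * nu L) := by
      field_simp
      ring
    have h7 : 0 ≤ (L - θ) / L * (h L + L * nu L) :=
      mul_nonneg (div_nonneg (by linarith) hL0.le) h5
    linarith
  constructor
  · refine MonotoneOn.convexOn_of_deriv (convex_Ici L) hcont
      (fun u hu => (hd u hu).differentiableAt.differentiableWithinAt) ?_
    intro u hu v hv huv
    rw [(hd u hu).deriv, (hd v hv).deriv]
    rw [interior_Ici] at hu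
    have := hmonoS u v (le_of_lt hu) huv
    linarith
  · refine monotoneOn_of_deriv_nonneg (convex_Ici L) hcont
      (fun u hu => (hd u hu).differentiableAt.differentiableWithinAt) ?_
    intro u hu
    rw [(hd u hu).deriv]
    rw [interior_Ici] at hu
    have := hmonoS L u le_rfl (le_of_lt hu)
    linarith

end

theorem main : Pool.Agent.W707.HM.S_RC2 := by
  intro g h nu c n1 hh hg hnu hn1 hg1 hh1 τ
  obtain ⟨L, hLd⟩ : ∃ L : ℝ, L = max 1 |τ| := ⟨_, rfl⟩
  have hL : 1 ≤ L := by rw [hLd]; exact le_max_left _ _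
  have hLτ : |τ| ≤ L := by rw [hLd]; exact le_max_right _ _
  have hL0 : (0 : ℝ) < L := by linarith
  obtain ⟨c1, m1⟩ := G_props hh hg hnu hn1 hh1 hL ((le_abs_self τ).trans hLτ)
  obtain ⟨c2, m2⟩ := G_props hh hg hnu hn1 hh1 hL ((neg_le_abs τ).trans hLτ)
  have k1 := convex_max c1 m1
  have k2 := convex_max c2 m2
  have k2' : ConvexOn ℝ univ (fun t : ℝ => G g h L (-τ) (max (-t) L)) := by
    refine ⟨convex_univ, ?_⟩
    intro x _ y _ a b ha hb hab
    have := k2.2 (mem_univ (-x)) (mem_univ (-y)) ha hb hab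
    have e : a • (-x) + b • (-y) = -(a • x + b • y) := by
      simp only [smul_eq_mul]; ring
    rw [e] at this
    exact this
  have k3 : ConvexOn ℝ univ (fun t : ℝ => g L + h L / L * τ * t) := by
    refine ⟨convex_univ, ?_⟩
    intro x _ y _ a b ha hb hab
    simp only [smul_eq_mul]
    have : b = 1 - a := by linarith
    subst this
    apply le_of_eq
    ring
  have k4 := (k3.add k1).add k2'
  have hGL : ∀ θ, G g h L θ L = 0 := by
    intro θ
    unfold G
    field_simp
    ring
  show ConvexOn ℝ univ (fun t : ℝ => (if max |t| |τ| < 1 then c else g (max |t| |τ|)) +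
    (if max |t| |τ| < 1 then -n1 else h (max |t| |τ|) / max |t| |τ|) * (t * τ))
  suffices hkey : (fun t : ℝ => (if max |t| |τ| < 1 then c else g (max |t| |τ|)) +
      (if max |t| |τ| < 1 then -n1 else h (max |t| |τ|) / max |t| |τ|) * (t * τ)) =
      ((fun t => g L + h L / L * τ * t) + fun u => G g h L τ (max u L)) +
        fun t => G g h L (-τ) (max (-t) L) by
    rw [hkey]
    exact k4
  funext t
  simp only [Pi.add_apply]
  rcases lt_or_ge L t with ht | ht
  · have e1 : max t L = t := max_eq_left ht.le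
    have e2 : max (-t) L = L := max_eq_right (by linarith)
    have e3 : max |t| |τ| = t := by
      rw [abs_of_pos (hL0.trans ht)]
      exact max_eq_left (by linarith)
    have e4 : ¬ t < 1 := by linarith
    have ht0 : t ≠ 0 := (hL0.trans ht).ne'
    rw [e1, e2, e3, if_neg e4, if_neg e4, hGL]
    unfold G
    field_simp
    ring
  rcases lt_or_ge t (-L) with ht' | ht'
  · have e1 : max t L = L := max_eq_right ht
    have e2 : max (-t) L = -t := max_eq_left (by linarith)
    have e3 : max |t| |τ| = -t := by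
      rw [abs_of_neg (by linarith)]
      exact max_eq_left (by linarith)
    have e4 : ¬ -t < 1 := by linarith
    have ht0 : t ≠ 0 := by
      intro h0
      rw [h0] at ht'
      linarith
    rw [e1, e2, e3, if_neg e4, if_neg e4, hGL]
    unfold G
    field_simp
    ring
  · have e1 : max t L = L := max_eq_right ht
    have e2 : max (-t) L = L := max_eq_right (by linarith)
    rw [e1, e2, hGL, hGL]
    have htL : |t| ≤ L := abs_le.2 ⟨ht', ht⟩
    by_cases hm : max |t| |τ| < 1
    · have hτ1 : |τ| < 1 := (le_max_right _ _).trans_lt hm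
      have hL1 : L = 1 := by
        rw [hLd]
        exact max_eq_left hτ1.le
      rw [if_pos hm, if_pos hm, hL1, hg1, hh1]
      ring
    · have hmL : max |t| |τ| = L := by
        refine le_antisymm (max_le htL hLτ) ?_
        rw [hLd]
        exact max_le (not_lt.1 hm) (le_max_right _ _)
      rw [if_neg hm, if_neg hm, hmL]
      ring

end Pool.Agent.W368.HM
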